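import Pool.Agent.Helper93.HZ.Blow
import Pool.Agent.Helper93.HZ.Lib

/-!
# HZ, module S5A: case A of 8.1
-/

set_option autoImplicit false

open MulAction Pointwise

namespace Pool.Agent.Helper93.HZ

section s5a

variable {G : Type} [Group G] {K : Cx G} {v : K.V} (L : LB K v)

theorem s5a_mem3 {α : Type} {x a b c : α} (h : x ∈ ({a, b, c} : Set α)) : x = a ∨ x = b ∨ x = c := by
  simpa only [Set.mem_insert_iff, Set.mem_singleton_iff] using h

theorem s5a_smul3 {α : Type} [MulAction G α] (m : G) (a b c : α) :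
    m • ({a, b, c} : Set α) = {m • a, m • b, m • c} := by
  simp only [Set.smul_set_insert, Set.smul_set_singleton]

/-- two triangles at `{q,y}` in one orbit -/
theorem s5a_orb {q y r r' : L.R.V} (hq : L.ρ q = v) (hy : ∀ g : G, L.ρ y ≠ g • v)
    (h : L.R.tri q y r) (h' : L.R.tri q y r') (hne : r ≠ r') {k : G}
    (hk : k • ({q, y, r} : Set L.R.V) = {q, y, r'}) : k • y = y ∧ r' = k • q ∧ k • r = q := by
  rw [s5a_smul3] at hk
  obtain ⟨n1, n2, n3⟩ := L.R.tri_ne h
  have hqy : ∀ g : G, g • q ≠ y := by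
    intro g hg
    apply hy g
    rw [← hg, L.ρ_smul, hq]
  have hyq : ∀ g : G, g • y ≠ q := by
    intro g hg
    apply hqy g⁻¹
    rw [inv_smul_eq_iff, hg]
  have h1 : k • q = r' := by
    rcases s5a_mem3 (show k • q ∈ ({q, y, r'} : Set L.R.V) by rw [← hk]; simp) with h2 | h2 | h2
    · exfalso
      have h3 : k = 1 := L.free q hq k h2
      rw [h3, one_smul, one_smul, one_smul] at hk
      rcases s5a_mem3 (show r ∈ ({q, y, r'} : Set L.R.V) by rw [← hk]; simp) with h4 | h4 | h4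
      · exact n3 h4.symm
      · exact n2 h4.symm
      · exact hne h4
    · exact absurd h2 (hqy k)
    · exact h2
  have h2 : k • y = y := by
    rcases s5a_mem3 (show k • y ∈ ({q, y, r'} : Set L.R.V) by rw [← hk]; simp) with h3 | h3 | h3
    · exact absurd h3 (hyq k)
    · exact h3
    · rw [← h1] at h3
      exact absurd (smul_left_cancel k h3).symm n1
  refine ⟨h2, h1.symm, ?_⟩
  rcases s5a_mem3 (show k • r ∈ ({q, y, r'} : Set L.R.V) by rw [← hk]; simp) with h3 | h3 | h3
  · exact h3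
  · rw [← h2] at h3
    exact absurd (smul_left_cancel k h3).symm n2
  · rw [← h1] at h3
    exact absurd (smul_left_cancel k h3).symm n3

theorem s5a_main (hCON : ST_CON) (hFF : ST_FF) (D : Setup G) (hN : NMax K) {q y r₁ r₂ r₃ : L.R.V}
    (hq : L.ρ q = v) (hy : ∀ g : G, L.ρ y ≠ g • v) (hadj : L.R.adj q y)
    (h1 : L.R.tri q y r₁) (h2 : L.R.tri q y r₂) (h3 : L.R.tri q y r₃)
    (h12 : r₁ ≠ r₂) (h13 : r₁ ≠ r₃) (h23 : r₂ ≠ r₃)
    (ho : orbit G ({q, y, r₁} : Set L.R.V) = orbit G ({q, y, r₂} : Set L.R.V)) : False := by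
  have hRmin : RMin K := hN.1
  obtain ⟨n1, n2, n3⟩ := L.R.tri_ne h2
  obtain ⟨m1, m2, m3⟩ := L.R.tri_ne h1
  have hqy : ∀ g : G, g • q ≠ y := by
    intro g hg
    apply hy g
    rw [← hg, L.ρ_smul, hq]
  have hyq : ∀ g g' : G, g • y ≠ g' • q := by
    intro g g' hg
    apply hqy (g⁻¹ * g')
    rw [mul_smul, ← hg, inv_smul_smul]
  have hfree : stabilizer G q = ⊥ := by
    rw [eq_bot_iff]
    intro g hg
    exact Subgroup.mem_bot.2 (L.free q hq g hg)
  obtain ⟨K', π, -, hcl, -, -, -, -, hrr⟩ := hCON G D L.R q y (stabilizer G y) hadj hfree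
    (Or.inl ⟨hqy, rfl⟩)
  have hoc : oc G {s : Set L.R.V | ∃ x y z, L.R.tri x y z ∧ π x = π y ∧ s = {x, y, z}} ≤ 2 := by
    have a1 := hRmin K'
    have a2 := L.delta1
    have a3 := L.delta2
    omega
  have hfinT : FinOrb G {s : Set L.R.V | ∃ x y z, L.R.tri x y z ∧ π x = π y ∧ s = {x, y, z}} := by
    refine FinOrb.mono L.R.finT ?_
    rintro s ⟨x, y, z, a1, -, a2⟩
    exact ⟨x, y, z, a1, a2⟩
  have hπqy : π q = π y := by
    rw [hcl]
    exact Or.inr ⟨1, Or.inr ⟨1, Subgroup.one_mem _, rfl⟩, Or.inl (one_smul _ _)⟩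
  obtain ⟨k, hk⟩ := orbit_eq_iff'.1 ho
  obtain ⟨k1, k2, k3⟩ := s5a_orb L hq hy h1 h2 h12 hk
  have hkk : k * k ≠ 1 := by
    intro h4
    apply h12
    have h5 : r₁ = k⁻¹ • q := by rw [eq_inv_smul_iff, k3]
    have h6 : k⁻¹ = k := inv_eq_of_mul_eq_one_left h4
    rw [h5, h6, k2]
  have hk1 : k ≠ 1 := by
    rintro rfl
    exact hkk (one_mul 1)
  -- the third triangle is in another orbit
  have ho3 : orbit G ({q, y, r₁} : Set L.R.V) ≠ orbit G ({q, y, r₃} : Set L.R.V) := by
    intro h4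
    obtain ⟨k', hk'⟩ := orbit_eq_iff'.1 h4
    obtain ⟨-, l2, l3⟩ := s5a_orb L hq hy h1 h3 h13 hk'
    have h5 : r₁ = k⁻¹ • q := by rw [eq_inv_smul_iff, k3]
    rw [h5, ← mul_smul] at l3
    have h6 := L.free q hq _ l3
    have h7 : k' = k := mul_inv_eq_one.1 h6
    apply h23
    rw [k2, l2, h7]
  have himg : ∀ s ∈ {s : Set L.R.V | ∃ x y z, L.R.tri x y z ∧ π x = π y ∧ s = {x, y, z}},
      orbit G s = orbit G ({q, y, r₁} : Set L.R.V) ∨ orbit G s = orbit G ({q, y, r₃} : Set L.R.V) := by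
    intro s hs
    have h4 : ({orbit G ({q, y, r₁} : Set L.R.V), orbit G ({q, y, r₃} : Set L.R.V)} : Set (Set (Set L.R.V))) =
        (fun s : Set L.R.V => orbit G s) ''
          {s : Set L.R.V | ∃ x y z, L.R.tri x y z ∧ π x = π y ∧ s = {x, y, z}} := by
      refine Set.eq_of_subset_of_ncard_le ?_ ?_ hfinT
      · rintro _ (rfl | rfl)
        · exact ⟨_, ⟨q, y, r₁, h1, hπqy, rfl⟩, rfl⟩
        · exact ⟨_, ⟨q, y, r₃, h3, hπqy, rfl⟩, rfl⟩
      · rw [Set.ncard_pair ho3]
        exact hoc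
    have h5 : orbit G s ∈ (fun s : Set L.R.V => orbit G s) ''
          {s : Set L.R.V | ∃ x y z, L.R.tri x y z ∧ π x = π y ∧ s = {x, y, z}} := ⟨s, hs, rfl⟩
    rw [← h4] at h5
    simpa only [Set.mem_insert_iff, Set.mem_singleton_iff] using h5
  -- `{q, k q}` lies in exactly one triangle
  have huniq : ∀ r, L.R.tri q r₂ r → r = y := by
    intro r hr
    obtain ⟨p1, p2, p3⟩ := L.R.tri_ne hr
    have hπ : π q = π r₂ := by
      rw [hcl]
      refine Or.inr ⟨1, Or.inr ⟨1, Subgroup.one_mem _, rfl⟩, Or.inr ⟨k, k1, ?_⟩⟩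
      rw [one_smul, k2]
    rcases himg _ ⟨q, r₂, r, hr, hπ, rfl⟩ with h4 | h4
    · rw [ho] at h4
      obtain ⟨m, hm⟩ := orbit_eq_iff'.1 h4.symm
      rw [s5a_smul3] at hm
      have hmy : m • y = r := by
        rcases s5a_mem3 (show m • y ∈ ({q, r₂, r} : Set L.R.V) by rw [← hm]; simp) with h5 | h5 | h5
        · exact absurd h5 (by simpa using hyq m 1)
        · rw [k2] at h5
          exact absurd h5 (hyq m k)
        · exact h5
      have hqm : m = 1 ∨ m * k = 1 := by
        rcases s5a_mem3 (show q ∈ ({m • q, m • y, m • r₂} : Set L.R.V) by rw [hm]; simp) with h5 | h5 | h5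
        · exact Or.inl (L.free q hq m h5.symm)
        · exact absurd h5.symm (by simpa using hyq m 1)
        · right
          rw [k2, ← mul_smul] at h5
          exact L.free q hq _ h5.symm
      rcases hqm with h5 | h5
      · rw [h5, one_smul] at hmy
        exact hmy.symm
      · exfalso
        rcases s5a_mem3 (show r₂ ∈ ({m • q, m • y, m • r₂} : Set L.R.V) by rw [hm]; simp) with h6 | h6 | h6
        · rw [k2] at h6
          have h7 : (m⁻¹ * k) • q = q := by rw [mul_smul, h6, inv_smul_smul]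
          have h8 : m = k := (inv_mul_eq_one.1 (L.free q hq _ h7))
          rw [h8] at h5
          exact hkk h5
        · rw [hmy] at h6
          exact p2 h6
        · have h7 : m • (k • q) = k • q := by rw [← k2]; exact h6.symm
          have h8 : (k⁻¹ * m * k) • q = q := by rw [mul_smul, mul_smul, h7, inv_smul_smul]
          have h9 := L.free q hq _ h8
          have h10 : m = 1 := by
            have : m = k * (k⁻¹ * m * k) * k⁻¹ := by group
            rw [this, h9]; group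
          rw [h10, one_mul] at h5
          exact hk1 h5
    · obtain ⟨m, hm⟩ := orbit_eq_iff'.1 h4.symm
      rw [s5a_smul3] at hm
      exfalso
      have hmy : m • y = r := by
        rcases s5a_mem3 (show m • y ∈ ({q, r₂, r} : Set L.R.V) by rw [← hm]; simp) with h5 | h5 | h5
        · exact absurd h5 (by simpa using hyq m 1)
        · rw [k2] at h5
          exact absurd h5 (hyq m k)
        · exact h5
      rcases s5a_mem3 (show q ∈ ({m • q, m • y, m • r₃} : Set L.R.V) by rw [hm]; simp) with h5 | h5 | h5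
      · have h6 := L.free q hq m h5.symm
        rw [h6, one_smul, one_smul, one_smul] at hm
        rcases s5a_mem3 (show r₂ ∈ ({q, y, r₃} : Set L.R.V) by rw [hm]; simp) with h7 | h7 | h7
        · exact n3 h7.symm
        · exact n2 h7.symm
        · exact h23 h7
      · exact absurd h5.symm (by simpa using hyq m 1)
      · rcases s5a_mem3 (show r₂ ∈ ({m • q, m • y, m • r₃} : Set L.R.V) by rw [hm]; simp) with h6 | h6 | h6
        · rw [k2] at h6
          have h7 : (m⁻¹ * k) • q = q := by rw [mul_smul, h6, inv_smul_smul]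
          have h8 : m = k := (inv_mul_eq_one.1 (L.free q hq _ h7))
          rw [h8] at h5
          apply h13
          apply smul_left_cancel k
          rw [k3, h5]
        · rw [hmy] at h6
          exact p2 h6
        · exact n3 (h5.trans h6.symm)
  -- `k` does not fix `v`
  have hρy : L.ρ y ≠ v := by simpa using hy 1
  have hKadj : K.adj v (L.ρ y) := by
    rcases L.adj1 _ _ hadj with h4 | h4
    · rw [hq] at h4
      exact absurd h4.symm hρy
    · rw [hq] at h4
      exact h4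
  have hky : k • L.ρ y = L.ρ y := by rw [← L.ρ_smul, k1]
  have hkv : k • v ≠ v := fun h4 => hk1 (L.lonely _ hKadj k h4 hky)
  have hρ2 : L.ρ r₂ = k • v := by rw [k2, L.ρ_smul, hq]
  have htri2 : L.R.tri q r₂ y := (L.R.tri_perm h2).2.2.2.1
  have hadj2 : L.R.adj q r₂ := L.R.tri_adj _ _ _ htri2
  have halpha := L.alpha q r₂ hadj2 (by rw [hq, hρ2]; exact hkv.symm) (by
    intro r hr
    rw [huniq r hr, hq, hρ2]
    exact ⟨hρy, hy k⟩)
  have hK1 : K.tri v (k • v) (L.ρ y) := by
    rcases L.trik _ _ _ htri2 with h4 | h4 | h4 | h4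
    · rw [hq, hρ2] at h4
      exact h4
    · rw [hq, hρ2] at h4
      exact absurd h4.1.symm hkv
    · rw [hρ2] at h4
      exact absurd h4.1.symm (hy k)
    · rw [hq] at h4
      exact absurd h4.1.symm hρy
  obtain ⟨K'', -, -, -, -, -, hrr2⟩ := hFF G D K v (k • v) (L.ρ y) hK1 (by
      intro z' hz'
      obtain ⟨p, p', r, e1, e2, e3, e4, -⟩ := L.lift _ _ _ hz'
      obtain ⟨e5, e6⟩ := halpha p p' (L.R.tri_adj _ _ _ e4) (by rw [e1, hq]) (by rw [e2, hρ2])
      rw [e5, e6] at e4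
      rw [← e3, huniq r e4])
    (by
      intro g hcon
      have h4 : L.ρ y ∈ ({g • v, g • k • v} : Set K.V) := by rw [hcon]; simp
      rcases h4 with h5 | h5
      · exact hy g h5
      · rw [Set.mem_singleton_iff, ← mul_smul] at h5
        exact hy _ h5)
    (by
      intro g hcon
      have h4 : L.ρ y ∈ ({g • v, g • k • v} : Set K.V) := by rw [hcon]; simp
      rcases h4 with h5 | h5
      · exact hy g h5
      · rw [Set.mem_singleton_iff, ← mul_smul] at h5
        exact hy _ h5)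
  have := hRmin K''
  omega

end s5a

theorem st_S5A (hCON : ST_CON) (hFF : ST_FF) (hFT : ST_FT) : ST_S5A := by
  intro G _ D K v L _ hN q y hq hadj hy
  have hfree : stabilizer G q = ⊥ := by
    rw [eq_bot_iff]
    intro g hg
    exact Subgroup.mem_bot.2 (L.free q hq g hg)
  have hfin : {r | L.R.tri q y r}.Finite := by
    refine hFT G L.R q y hadj ?_
    rw [hfree, bot_inf_eq]
    infer_instance
  refine ⟨hfin, ?_⟩
  by_contra hcon
  have h3 : 2 < {r | L.R.tri q y r}.ncard := by omega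
  obtain ⟨r₁, r₂, r₃, h1, h2, h3, h12, h13, h23⟩ := (Set.two_lt_ncard_iff hfin).1 h3
  -- two of the three triangles are in one orbit
  have hRmin : RMin K := hN.1
  have hqy : ∀ g : G, g • q ≠ y := by
    intro g hg
    apply hy g
    rw [← hg, L.ρ_smul, hq]
  obtain ⟨K', π, -, hcl, -, -, -, -, hrr⟩ := hCON G D L.R q y (stabilizer G y) hadj hfree
    (Or.inl ⟨hqy, rfl⟩)
  have hoc : oc G {s : Set L.R.V | ∃ x y z, L.R.tri x y z ∧ π x = π y ∧ s = {x, y, z}} ≤ 2 := by
    have a1 := hRmin K'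
    have a2 := L.delta1
    have a3 := L.delta2
    omega
  have hfinT : FinOrb G {s : Set L.R.V | ∃ x y z, L.R.tri x y z ∧ π x = π y ∧ s = {x, y, z}} := by
    refine FinOrb.mono L.R.finT ?_
    rintro s ⟨x, y, z, a1, -, a2⟩
    exact ⟨x, y, z, a1, a2⟩
  have hπqy : π q = π y := by
    rw [hcl]
    exact Or.inr ⟨1, Or.inr ⟨1, Subgroup.one_mem _, rfl⟩, Or.inl (one_smul _ _)⟩
  by_cases o12 : orbit G ({q, y, r₁} : Set L.R.V) = orbit G ({q, y, r₂} : Set L.R.V)
  · exact s5a_main L hCON hFF D hN hq hy hadj h1 h2 h3 h12 h13 h23 o12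
  by_cases o13 : orbit G ({q, y, r₁} : Set L.R.V) = orbit G ({q, y, r₃} : Set L.R.V)
  · exact s5a_main L hCON hFF D hN hq hy hadj h1 h3 h2 h13 h12 h23.symm o13
  by_cases o23 : orbit G ({q, y, r₂} : Set L.R.V) = orbit G ({q, y, r₃} : Set L.R.V)
  · exact s5a_main L hCON hFF D hN hq hy hadj h2 h3 h1 h23 h12.symm h13.symm o23
  have h4 : 3 ≤ ({orbit G ({q, y, r₁} : Set L.R.V), orbit G ({q, y, r₂} : Set L.R.V),
      orbit G ({q, y, r₃} : Set L.R.V)} : Set (Set (Set L.R.V))).ncard := by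
    rw [Set.ncard_eq_three.2 ⟨_, _, _, o12, o13, o23, rfl⟩]
  have h5 : ({orbit G ({q, y, r₁} : Set L.R.V), orbit G ({q, y, r₂} : Set L.R.V),
      orbit G ({q, y, r₃} : Set L.R.V)} : Set (Set (Set L.R.V))).ncard ≤ 2 := by
    refine (Set.ncard_le_ncard ?_ hfinT).trans hoc
    rintro _ (rfl | rfl | rfl)
    · exact ⟨_, ⟨q, y, r₁, h1, hπqy, rfl⟩, rfl⟩
    · exact ⟨_, ⟨q, y, r₂, h2, hπqy, rfl⟩, rfl⟩
    · exact ⟨_, ⟨q, y, r₃, h3, hπqy, rfl⟩, rfl⟩
  omega

end Pool.Agent.Helper93.HZ
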