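import Pool.Agent.Helper93.HZ.Blow
import Pool.Agent.Helper93.HZ.Lib

/-!
# HZ, module STAR (7.2): a plain nontrivial component has at least two exits
-/

set_option autoImplicit false

open MulAction Pointwise

namespace Pool.Agent.Helper93.HZ

/-! ### fields -/

section fields

variable {U : Type} {T : SimpleGraph U} {N N' : U → U}

theorem star_adj (hN : IsField T N) {v : U} (h : N v ≠ v) : T.Adj v (N v) := (hN.1 v).resolve_left h

theorem star_nb (hN : IsField T N) {v : U} (h : N v ≠ v) : N (N v) ≠ v :=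
  (hN.2 v (N v) (star_adj hN h)).1 rfl

/-- a field pointing back keeps pointing back -/
theorem star_back (hN : IsField T N) (hN' : IsField T N') {v : U} (h : N' (N v) = v) :
    ∀ k : ℕ, N^[k + 1] v ≠ N^[k] v → N' (N^[k + 1] v) = N^[k] v := by
  intro k
  induction k with
  | zero => intro _; exact h
  | succ k ih =>
    intro h2
    set c := N^[k] v with hc
    have e1 : N^[k + 1] v = N c := by rw [Function.iterate_succ_apply']
    have e2 : N^[k + 1 + 1] v = N (N c) := by rw [Function.iterate_succ_apply', e1]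
    rw [e1, e2] at h2
    rw [e1] at ih
    rw [e1, e2]
    have h3 : N c ≠ c := by
      intro h4
      rw [h4, h4] at h2
      exact h2 rfl
    have h4 := ih h3
    have h5 := hN'.2 (N c) (N (N c)) (star_adj hN h2)
    by_contra h6
    have h7 := h5.2 h6
    rw [h4] at h7
    exact star_nb hN h3 h7.symm

/-- the last moving step -/
theorem star_last {v : U} (hv : N v ≠ v) : ∀ k : ℕ, 0 < k →
    ∃ j : ℕ, N^[j + 1] v = N^[k] v ∧ N^[j + 1] v ≠ N^[j] v := by
  intro k
  induction k with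
  | zero => intro h; exact absurd h (lt_irrefl 0)
  | succ k ih =>
    intro _
    rcases Nat.eq_zero_or_pos k with hk | hk
    · subst hk
      exact ⟨0, rfl, hv⟩
    · obtain ⟨j, h1, h2⟩ := ih hk
      by_cases h3 : N^[k + 1] v = N^[k] v
      · exact ⟨j, h1.trans h3.symm, h2⟩
      · exact ⟨k, rfl, h3⟩

/-- no return -/
theorem star_noret (hA : ST_TFA) (hT : T.IsTree) (hN : IsField T N) {v : U} {k : ℕ} (hk : 0 < k)
    (h : N^[k] v = v) : N v = v := by
  by_contra hv
  obtain ⟨F, hF, hFv⟩ := (hA U T hT).1 v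
  have h1 : F (N v) = v := by
    by_contra h2
    have := (hF.2 v (N v) (star_adj hN hv)).2 h2
    rw [hFv] at this
    exact hv this.symm
  obtain ⟨j, h2, h3⟩ := star_last hv k hk
  have h4 := star_back hN hF h1 j h3
  rw [h2, h, hFv] at h4
  rw [h2, h] at h3
  exact h3 h4

/-- a field agreeing with `N` at `N^k c` agrees with it at `c` -/
theorem star_fwd (hN : IsField T N) (hN' : IsField T N') : ∀ (k : ℕ) (c : U),
    N' (N^[k] c) = N (N^[k] c) → N (N^[k] c) ≠ N^[k] c → N' c = N c ∧ N c ≠ c := by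
  intro k
  induction k with
  | zero => intro c h1 h2; exact ⟨h1, h2⟩
  | succ k ih =>
    intro c h1 h2
    rw [Function.iterate_succ_apply] at h1 h2
    obtain ⟨h3, h4⟩ := ih (N c) h1 h2
    have h5 : N c ≠ c := by
      intro h6
      rw [h6] at h4
      exact h4 h6
    refine ⟨?_, h5⟩
    rw [(hN'.2 c (N c) (star_adj hN h5)), h3]
    exact star_nb hN h5

theorem star_opp (hN : IsField T N) {u w : U} (h : T.Adj u w) (h1 : N u = w) : N w ≠ u :=
  (hN.2 u w h).1 h1

theorem star_opp' (hN : IsField T N) {u w : U} (h : T.Adj u w) (h1 : N u ≠ w) : N w = u := by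
  by_contra h2
  exact h1 ((hN.2 u w h).2 h2)

end fields

theorem star_rtg_symm {α : Type} {r : α → α → Prop} (hs : ∀ a b, r a b → r b a) {a b : α}
    (h : Relation.ReflTransGen r a b) : Relation.ReflTransGen r b a := by
  induction h with
  | refl => exact Relation.ReflTransGen.refl
  | tail _ hbc ih => exact Relation.ReflTransGen.head (hs _ _ hbc) ih

/-! ### the component -/

section comp

variable {G : Type} [Group G] (X : Ctx G) (x0 : X.V) (u w : X.U) (C : Set X.V)

theorem star_C_prop (h : X.IsPl x0 u w C) : ∀ y ∈ C, X.K.adj x0 y ∧ X.P.N y u = w := by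
  obtain ⟨-, -, ⟨y0, h1, h2, rfl⟩, -⟩ := h
  intro y hy
  have hy' : Relation.ReflTransGen (fun p q => X.K.tri x0 p q ∧ X.P.N p u = w ∧ X.P.N q u = w) y0 y := hy
  clear hy
  induction hy' with
  | refl => exact ⟨h1, h2⟩
  | tail _ hab _ => exact ⟨(X.K.tri_adj' hab.1).2.2.2.2.2, hab.2.2⟩

theorem star_C_conn (h : X.IsPl x0 u w C) {y y' : X.V} (hy : y ∈ C) (hy' : y' ∈ C) :
    Relation.ReflTransGen (fun p q => X.K.tri x0 p q ∧ X.P.N p u = w ∧ X.P.N q u = w) y y' := by
  obtain ⟨-, -, ⟨y0, h1, h2, rfl⟩, -⟩ := h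
  have h3 : Relation.ReflTransGen (fun p q => X.K.tri x0 p q ∧ X.P.N p u = w ∧ X.P.N q u = w) y0 y := hy
  have h4 : Relation.ReflTransGen (fun p q => X.K.tri x0 p q ∧ X.P.N p u = w ∧ X.P.N q u = w) y0 y' := hy'
  exact (star_rtg_symm (fun p q hpq => ⟨(X.K.tri_perm hpq.1).2.2.2.1, hpq.2.2, hpq.2.1⟩) h3).trans h4

theorem star_C_closed (h : X.IsPl x0 u w C) {y y' : X.V} (hy : y ∈ C)
    (hr : Relation.ReflTransGen (fun p q => X.K.tri x0 p q ∧ X.P.N p u = w ∧ X.P.N q u = w) y y') : y' ∈ C := by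
  obtain ⟨-, -, ⟨y0, h1, h2, rfl⟩, -⟩ := h
  have h3 : Relation.ReflTransGen (fun p q => X.K.tri x0 p q ∧ X.P.N p u = w ∧ X.P.N q u = w) y0 y := hy
  exact h3.trans hr

/-- a neighbour inside the component -/
theorem star_C_nbr (h : X.IsPl x0 u w C) {y : X.V} (hy : y ∈ C) : ∃ z ∈ C, X.K.tri x0 y z := by
  have h' := h
  obtain ⟨-, -, -, -, -, a, ha, b, hb, hab⟩ := h'
  have hc : ∃ c ∈ C, c ≠ y := by
    by_cases hay : a = y
    · exact ⟨b, hb, fun e => hab (hay.trans e.symm)⟩
    · exact ⟨a, ha, hay⟩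
  obtain ⟨c, hcC, hcy⟩ := hc
  have h1 := star_C_conn X x0 u w C h hy hcC
  rcases Relation.ReflTransGen.cases_head h1 with h2 | ⟨z, h2, -⟩
  · exact absurd h2.symm hcy
  · exact ⟨z, star_C_closed X x0 u w C h hy (Relation.ReflTransGen.single h2), h2.1⟩

/-- case A of (i) -/
theorem star_caseA (hA : ST_TFA) (hI : ST_INF) (h : X.IsPl x0 u w C) {g : G} (hg : g • x0 = x0) {y : X.V}
    (hy : y ∈ C) (hy' : y ∈ g • C) {k : ℕ} (hk : g • w = (X.P.N x0)^[k] w) : g = 1 := by
  have hadj : X.D.T.Adj u w := h.1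
  have hNw : X.P.N x0 w = u := h.2.1
  have hne : X.P.N x0 w ≠ w := by rw [hNw]; exact hadj.ne
  have hN := X.P.fN x0
  have hNg : ∀ v, X.P.N x0 (g • v) = g • X.P.N x0 v := by
    intro v
    have := X.P.eN g x0 v
    rwa [hg] at this
  have hgi : g⁻¹ • x0 = x0 := by rw [inv_smul_eq_iff, hg]
  -- every element of `C` is seen beyond `g ε`
  have h1 : ∀ z ∈ C, X.P.N z (g • u) = g • w := by
    intro z hz
    have h2 := (star_C_prop X x0 u w C h z hz).2
    have h3 : X.P.N z (X.P.N x0 w) = w := by rw [hNw, h2]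
    have h4 : (X.P.N x0)^[k + 1] w = g • u := by
      rw [Function.iterate_succ_apply', ← hk, hNg, hNw]
    have h5 : (X.P.N x0)^[k + 1] w ≠ (X.P.N x0)^[k] w := by
      rw [h4, ← hk]
      intro h6
      exact hadj.ne (smul_left_cancel g h6)
    have h6 := star_back hN (X.P.fN z) h3 k h5
    rw [h4, ← hk] at h6
    exact h6
  have hsub : C ⊆ g • C := by
    intro z hz
    rw [Set.mem_smul_set_iff_inv_smul_mem] at hy' ⊢
    refine star_C_closed X x0 u w C h hy' ?_
    have h2 := star_C_conn X x0 u w C h hy hz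
    have h3 : ∀ a, Relation.ReflTransGen (fun p q => X.K.tri x0 p q ∧ X.P.N p u = w ∧ X.P.N q u = w) y a →
        a ∈ C ∧ Relation.ReflTransGen (fun p q => X.K.tri x0 p q ∧ X.P.N p u = w ∧ X.P.N q u = w)
          (g⁻¹ • y) (g⁻¹ • a) := by
      intro a ha
      induction ha with
      | refl => exact ⟨hy, Relation.ReflTransGen.refl⟩
      | @tail b c _ hbc ih =>
        obtain ⟨hb, ih⟩ := ih
        have hc : c ∈ C := star_C_closed X x0 u w C h hb (Relation.ReflTransGen.single hbc)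
        refine ⟨hc, ih.tail ?_⟩
        have h4 := X.K.smul_tri g⁻¹ _ _ _ hbc.1
        rw [hgi] at h4
        refine ⟨h4, ?_, ?_⟩
        · have h5 := X.P.eN g⁻¹ b (g • u)
          rw [inv_smul_smul, h1 b hb, inv_smul_smul] at h5
          exact h5
        · have h5 := X.P.eN g⁻¹ c (g • u)
          rw [inv_smul_smul, h1 c hc, inv_smul_smul] at h5
          exact h5
    exact (h3 z h2).2
  have hfin : C.Finite := h.2.2.2.1
  have heq : g • C = C := by
    symm
    refine Set.eq_of_subset_of_ncard_le hsub ?_ (hfin.smul_set)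
    rw [Set.ncard_smul_set]
  have hpow : ∀ n : ℕ, g ^ n • y ∈ C := by
    intro n
    induction n with
    | zero => rw [pow_zero, one_smul]; exact hy
    | succ n ih =>
      rw [pow_succ', mul_smul, ← heq]
      exact Set.smul_mem_smul_set ih
  obtain ⟨m, n, hmn, hmn2⟩ : ∃ m n : ℕ, m < n ∧ g ^ m • y = g ^ n • y := by
    have hni : ¬ Function.Injective (fun n : ℕ => g ^ n • y) := by
      intro hinj
      exact Set.infinite_of_injective_forall_mem hinj hpow hfin
    rw [Function.not_injective_iff] at hni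
    obtain ⟨a, b, hab, hne'⟩ := hni
    rcases lt_or_gt_of_ne hne' with hlt | hlt
    · exact ⟨a, b, hlt, hab⟩
    · exact ⟨b, a, hlt, hab.symm⟩
  have hpx : ∀ n : ℕ, g ^ n • x0 = x0 := by
    intro n
    induction n with
    | zero => rw [pow_zero, one_smul]
    | succ n ih => rw [pow_succ', mul_smul, ih, hg]
  have hone : g ^ (n - m) = 1 := by
    refine h.2.2.2.2.1 y hy _ (hpx _) ?_
    have e : g ^ n = g ^ m * g ^ (n - m) := by rw [← pow_add]; congr 1; omega
    rw [e, mul_smul] at hmn2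
    exact (smul_left_cancel _ hmn2).symm
  have hpos : 0 < n - m := by omega
  have hiter : ∀ i : ℕ, g ^ i • w = (X.P.N x0)^[k * i] w := by
    intro i
    induction i with
    | zero => rw [pow_zero, one_smul]; rfl
    | succ i ih =>
      have h7 : ∀ j : ℕ, g • (X.P.N x0)^[j] w = (X.P.N x0)^[j] (g • w) := by
        intro j
        induction j with
        | zero => rfl
        | succ j ihj => rw [Function.iterate_succ_apply', ← hNg, ihj, ← Function.iterate_succ_apply' (X.P.N x0)]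
      rw [pow_succ', mul_smul, ih, h7, hk, ← Function.iterate_add_apply, Nat.mul_succ]
  have hk0 : k = 0 := by
    by_contra hk'
    have h8 := hiter (n - m)
    rw [hone, one_smul] at h8
    exact hne (star_noret hA X.D.tree hN (Nat.mul_pos (Nat.pos_of_ne_zero hk') hpos) h8.symm)
  subst hk0
  have hgw : g • w = w := hk
  have hgu : g • u = u := by rw [← hNw, ← hNg, hgw]
  obtain ⟨z, hz, hst⟩ := (hI G X.D).2.1 u w hadj
  have hgz : g ∈ Subgroup.zpowers z := by
    rw [← hst]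
    exact ⟨hgu, hgw⟩
  obtain ⟨j, hj⟩ := Subgroup.mem_zpowers_iff.1 hgz
  by_contra hg1
  have hj0 : j ≠ 0 := by
    rintro rfl
    rw [zpow_zero] at hj
    exact hg1 hj.symm
  apply hz
  rw [isOfFinOrder_iff_zpow_eq_one]
  refine ⟨j * ((n - m : ℕ) : ℤ), mul_ne_zero hj0 (by exact_mod_cast hpos.ne'), ?_⟩
  rw [zpow_mul, hj, zpow_natCast, hone]

/-- (i): the translates of `C` by the stabilizer of `x0` are disjoint -/
theorem star_disj (hA : ST_TFA) (hTC : ST_TFC) (hI : ST_INF) (h : X.IsPl x0 u w C) {g : G} (hg : g • x0 = x0)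
    {y : X.V} (hy : y ∈ C) (hy' : y ∈ g • C) : g = 1 := by
  have hadj : X.D.T.Adj u w := h.1
  have hNw : X.P.N x0 w = u := h.2.1
  have hN := X.P.fN x0
  have hNy := X.P.fN y
  have hyi : g⁻¹ • y ∈ C := Set.mem_smul_set_iff_inv_smul_mem.1 hy'
  have h1 := (star_C_prop X x0 u w C h y hy).2
  have h2 : X.P.N y (g • u) = g • w := by
    have h3 := (star_C_prop X x0 u w C h _ hyi).2
    have h4 := X.P.eN g (g⁻¹ • y) u
    rw [smul_inv_smul, h3] at h4
    exact h4
  have h3 : X.P.N x0 (g • w) = g • u := by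
    have := X.P.eN g x0 w
    rwa [hg, hNw] at this
  have hgadj : X.D.T.Adj (g • u) (g • w) := Tadj_smul g hadj
  have o1 : OnI (X.P.N x0) (X.P.N y) w := by
    intro h4
    rw [hNw] at h4
    exact absurd h4.symm (star_opp hNy hadj h1)
  have o2 : OnI (X.P.N x0) (X.P.N y) (g • w) := by
    intro h4
    rw [h3] at h4
    exact absurd h4.symm (star_opp hNy hgadj h2)
  have hT := (hTC X.U X.D.T X.D.tree _ _ hN hNy).1
  have hyg : g⁻¹ • y ∈ g⁻¹ • C := Set.smul_mem_smul_set hy
  have hgi : g⁻¹ • x0 = x0 := by rw [inv_smul_eq_iff, hg]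
  -- the inverse case
  have hinv : (∃ k : ℕ, w = (X.P.N x0)^[k] (g • w)) → g = 1 := by
    rintro ⟨k, hk⟩
    have h5 : g⁻¹ • w = (X.P.N x0)^[k] w := by
      have h6 := X.P.N_iter g⁻¹ x0 (g • w) k
      rw [hgi, inv_smul_smul, ← hk] at h6
      exact h6.symm
    have h7 := star_caseA X x0 u w C hA hI h hgi hyi hyg h5
    exact inv_eq_one.1 h7
  obtain ⟨k, hk | hk⟩ := hT w (g • w) o1 o2
  · exact star_caseA X x0 u w C hA hI h hg hy hy' hk
  · obtain ⟨k', hk' | hk'⟩ := hT (g • w) w o2 o1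
    · exact hinv ⟨k', hk'⟩
    · have h5 : g • w = w := by
        rcases Nat.eq_zero_or_pos k with h6 | h6
        · subst h6; exact hk
        · have h7 : (X.P.N y)^[k' + k] w = w := by
            rw [Function.iterate_add_apply, ← hk, ← hk']
          have h8 := star_noret hA X.D.tree hNy (Nat.add_pos_right _ h6) h7
          rw [hk]
          exact Function.iterate_fixed h8 k
      exact star_caseA X x0 u w C hA hI h hg hy hy' (k := 0) h5

/-! ### positions -/

/-- `x = g x0`, `y` in `g C`, `c` beyond `g ε` -/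
def StPos (g : G) (x y : X.V) (c : X.U) : Prop :=
  x = g • x0 ∧ y ∈ g • C ∧ ∃ k : ℕ, (X.P.N y)^[k] (g • w) = c

theorem star_pos_uniq (hA : ST_TFA) (hTC : ST_TFC) (hI : ST_INF) (h : X.IsPl x0 u w C) {g g' : G}
    {x y : X.V} (h1 : x = g • x0) (h2 : y ∈ g • C) (h1' : x = g' • x0) (h2' : y ∈ g' • C) : g = g' := by
  have h3 : (g'⁻¹ * g) • x0 = x0 := by rw [mul_smul, ← h1, h1', inv_smul_smul]
  have h4 : g'⁻¹ • y ∈ C := Set.mem_smul_set_iff_inv_smul_mem.1 h2'
  have h5 : g'⁻¹ • y ∈ (g'⁻¹ * g) • C := by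
    rw [Set.mem_smul_set_iff_inv_smul_mem, ← mul_smul]
    have e : (g'⁻¹ * g)⁻¹ * g'⁻¹ = g⁻¹ := by group
    rw [e]
    exact Set.mem_smul_set_iff_inv_smul_mem.1 h2
  have h6 := star_disj X x0 u w C hA hTC hI h h3 h4 h5
  have h7 : g = g' * (g'⁻¹ * g) := by group
  rw [h7, h6, mul_one]

theorem star_pos_smul {g k : G} {x y : X.V} {c : X.U} (h : StPos X x0 w C g x y c) :
    StPos X x0 w C (k * g) (k • x) (k • y) (k • c) := by
  obtain ⟨h1, h2, n, h3⟩ := h
  refine ⟨by rw [h1, mul_smul], ?_, n, ?_⟩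
  · rw [mul_smul]
    exact Set.smul_mem_smul_set h2
  · rw [mul_smul, X.P.N_iter, h3]

open Classical in
/-- the positions -/
noncomputable def stπ (x y : X.V) (c : X.U) : X.V ⊕ G :=
  if h : ∃ g, StPos X x0 w C g x y c then Sum.inr h.choose else Sum.inl x

theorem star_π_inr (hA : ST_TFA) (hTC : ST_TFC) (hI : ST_INF) (h : X.IsPl x0 u w C) {g : G} {x y : X.V}
    {c : X.U} (hp : StPos X x0 w C g x y c) : stπ X x0 w C x y c = Sum.inr g := by
  unfold stπ
  have h1 : ∃ g, StPos X x0 w C g x y c := ⟨g, hp⟩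
  rw [dif_pos h1]
  have h2 := h1.choose_spec
  rw [star_pos_uniq X x0 u w C hA hTC hI h h2.1 h2.2.1 hp.1 hp.2.1]

theorem star_π_cases (x y : X.V) (c : X.U) : (stπ X x0 w C x y c = Sum.inl x ∧ ∀ g, ¬ StPos X x0 w C g x y c) ∨
    ∃ g, stπ X x0 w C x y c = Sum.inr g ∧ StPos X x0 w C g x y c := by
  unfold stπ
  by_cases h1 : ∃ g, StPos X x0 w C g x y c
  · right
    rw [dif_pos h1]
    exact ⟨h1.choose, rfl, h1.choose_spec⟩
  · left
    rw [dif_neg h1]
    exact ⟨rfl, fun g hg => h1 ⟨g, hg⟩⟩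

theorem star_π_smul (hA : ST_TFA) (hTC : ST_TFC) (hI : ST_INF) (h : X.IsPl x0 u w C) (g : G) (x y : X.V)
    (c : X.U) : stπ X x0 w C (g • x) (g • y) (g • c) = g • stπ X x0 w C x y c := by
  rcases star_π_cases X x0 w C x y c with ⟨h1, h2⟩ | ⟨k, h1, h2⟩
  · rcases star_π_cases X x0 w C (g • x) (g • y) (g • c) with ⟨h3, -⟩ | ⟨k, -, h4⟩
    · rw [h1, h3]; rfl
    · have h5 := star_pos_smul X x0 w C (k := g⁻¹) h4
      rw [inv_smul_smul, inv_smul_smul, inv_smul_smul] at h5
      exact absurd h5 (h2 _)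
  · rw [h1, star_π_inr X x0 u w C hA hTC hI h (star_pos_smul X x0 w C (k := g) h2)]
    rfl

/-- the centre of a triangle at `x0` with a side in `C` is beyond `ε` for one side iff for the other -/
theorem star_p3_base (hTC : ST_TFC) (h : X.IsPl x0 u w C) {y z : X.V} {c : X.U} (hy : y ∈ C)
    (ht : X.K.tri x0 y z) (hc : IsCenter (X.P.N x0) (X.P.N y) (X.P.N z) c) {k : ℕ}
    (hk : (X.P.N y)^[k] w = c) : z ∈ C ∧ ∃ k' : ℕ, (X.P.N z)^[k'] w = c := by
  have hadj : X.D.T.Adj u w := h.1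
  have hNw : X.P.N x0 w = u := h.2.1
  have hN := X.P.fN x0
  have hNy := X.P.fN y
  have hNz := X.P.fN z
  have h1 := (star_C_prop X x0 u w C h y hy).2
  have hzu : X.P.N z u = w := by
    by_contra hcon
    have h2 : X.P.N z w = u := star_opp' hNz hadj hcon
    -- both `x0` and `z` point back at `c`
    have h3 : ∃ a, a ≠ c ∧ X.P.N x0 c = a ∧ X.P.N z c = a := by
      by_cases hyw : X.P.N y w = w
      · have h4 : c = w := by rw [← hk]; exact Function.iterate_fixed hyw k
        rw [h4]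
        exact ⟨u, hadj.ne, hNw, h2⟩
      · rcases Nat.eq_zero_or_pos k with h5 | h5
        · subst h5
          rw [← hk]
          exact ⟨u, hadj.ne, hNw, h2⟩
        · -- write `c = (N y)^(j+2) u`
          have hyu : X.P.N y u ≠ u := by rw [h1]; exact hadj.ne'
          have h6 : (X.P.N y)^[k + 1] u = c := by
            rw [Function.iterate_succ_apply, h1, hk]
          obtain ⟨j, h7, h8⟩ := star_last hyu (k + 1) (Nat.succ_pos k)
          have h9 := star_back hNy hN (v := u) (by rw [h1, hNw]) j h8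
          have h10 := star_back hNy hNz (v := u) (by rw [h1, h2]) j h8
          rw [h7, h6] at h9 h10 h8
          exact ⟨_, h8.symm, h9, h10⟩
    obtain ⟨a, ha, h4, h5⟩ := h3
    have h6 := hc.2.2 (h4.trans h5.symm)
    rw [h4] at h6
    exact ha h6
  have hzC : z ∈ C := star_C_closed X x0 u w C h hy (Relation.ReflTransGen.single ⟨ht, h1, hzu⟩)
  refine ⟨hzC, ?_⟩
  have o1 : OnI (X.P.N x0) (X.P.N z) w := by
    intro h4
    rw [hNw] at h4
    exact absurd h4.symm (star_opp hNz hadj hzu)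
  have o2 : OnI (X.P.N x0) (X.P.N z) c := hc.2.2
  obtain ⟨k', h2 | h2⟩ := (hTC X.U X.D.T X.D.tree _ _ hN hNz).1 w c o1 o2
  · -- then `c = w`
    rcases Nat.eq_zero_or_pos k' with h3 | h3
    · subst h3
      exact ⟨0, h2.symm⟩
    · exfalso
      have hne : X.P.N x0 w ≠ w := by rw [hNw]; exact hadj.ne
      obtain ⟨j, h4, h5⟩ := star_last hne k' h3
      have h6 := star_back hN hNy (v := w) (by rw [hNw, h1]) j h5
      have h7 := star_back hN hNz (v := w) (by rw [hNw, hzu]) j h5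
      rw [h4, ← h2] at h6 h7 h5
      have h8 := hc.2.1 (h6.trans h7.symm)
      rw [h6] at h8
      exact h5 h8.symm
  · exact ⟨k', h2.symm⟩

theorem star_p3 (hTC : ST_TFC) (h : X.IsPl x0 u w C) {g : G} {x y z : X.V} {c : X.U}
    (hp : StPos X x0 w C g x y c) (ht : X.K.tri x y z)
    (hc : IsCenter (X.P.N x) (X.P.N y) (X.P.N z) c) : StPos X x0 w C g x z c := by
  obtain ⟨h1, h2, k, h3⟩ := hp
  have hy : g⁻¹ • y ∈ C := Set.mem_smul_set_iff_inv_smul_mem.1 h2
  have ht' : X.K.tri x0 (g⁻¹ • y) (g⁻¹ • z) := by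
    have := X.K.smul_tri g⁻¹ _ _ _ ht
    rwa [h1, inv_smul_smul] at this
  have e1 : ∀ v : X.V, ∀ a : X.U, X.P.N (g⁻¹ • v) (g⁻¹ • a) = g⁻¹ • X.P.N v a := fun v a => X.P.eN g⁻¹ v a
  have e0 : X.P.N x0 (g⁻¹ • c) = g⁻¹ • X.P.N x c := by
    have := e1 x c
    rwa [h1, inv_smul_smul, ← h1] at this
  have hc' : IsCenter (X.P.N x0) (X.P.N (g⁻¹ • y)) (X.P.N (g⁻¹ • z)) (g⁻¹ • c) := by
    refine ⟨fun h4 => ?_, fun h4 => ?_, fun h4 => ?_⟩
    · rw [e0, e1] at h4
      rw [e0, hc.1 (smul_left_cancel _ h4)]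
    · rw [e1, e1] at h4
      rw [e1, hc.2.1 (smul_left_cancel _ h4)]
    · rw [e0, e1] at h4
      rw [e0, hc.2.2 (smul_left_cancel _ h4)]
  have hk : (X.P.N (g⁻¹ • y))^[k] w = g⁻¹ • c := by
    have := X.P.N_iter g⁻¹ y (g • w) k
    rwa [inv_smul_smul, h3] at this
  obtain ⟨h4, k', h5⟩ := star_p3_base X x0 u w C hTC h hy ht' hc' hk
  refine ⟨h1, Set.mem_smul_set_iff_inv_smul_mem.2 h4, k', ?_⟩
  have h6 := X.P.N_iter g (g⁻¹ • z) w k'
  rw [smul_inv_smul, h5, smul_inv_smul] at h6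
  exact h6

theorem star_center_symm {N₁ N₂ N₃ : X.U → X.U} {c : X.U} (h : IsCenter N₁ N₂ N₃ c) : IsCenter N₁ N₃ N₂ c :=
  ⟨h.2.2, fun e => by rw [e]; exact h.2.1 e.symm, h.1⟩

/-- the fibration -/
def stρ : X.V ⊕ G → Set X.V
  | .inl x => {x}
  | .inr g => {g • x0}

/-- the leaf edges -/
def stss : X.V ⊕ G → X.V ⊕ G → Prop := fun p q =>
  (∃ g : G, p = .inl (g • x0) ∧ q = .inr g) ∨ ∃ g : G, q = .inl (g • x0) ∧ p = .inr g

theorem star_ρ_smul (g : G) (p : X.V ⊕ G) : stρ X x0 (g • p) = g • stρ X x0 p := by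
  cases p with
  | inl x =>
    show ({g • x} : Set X.V) = g • ({x} : Set X.V)
    rw [Set.smul_set_singleton]
  | inr k =>
    show ({(g * k) • x0} : Set X.V) = g • ({k • x0} : Set X.V)
    rw [Set.smul_set_singleton, mul_smul]

/-- the position data -/
noncomputable def stPD (hA : ST_TFA) (hTC : ST_TFC) (hI : ST_INF) (h : X.IsPl x0 u w C) : PD X.D X.K X.P where
  cl x := {x}
  cl_self x := Set.mem_singleton x
  cl_eq x y hy := by rw [Set.mem_singleton_iff.1 hy]
  cl_smul g x := Set.smul_set_singleton.symm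
  cl_conn x y hy := by rw [Set.mem_singleton_iff.1 hy]
  cl_ne x := by
    obtain ⟨y, hy⟩ := X.K.nbr x
    refine ⟨y, fun hyx => ?_⟩
    rw [Set.mem_singleton_iff] at hyx
    rw [hyx] at hy
    exact X.K.irrefl x hy
  W := X.V ⊕ G
  act := inferInstance
  ρ := stρ X x0
  ρ_smul := star_ρ_smul X x0
  ρ_cl p := by
    cases p with
    | inl x => exact ⟨x, rfl⟩
    | inr g => exact ⟨g • x0, rfl⟩
  ρ_surj x := ⟨Sum.inl x, rfl⟩
  ss := stss X x0
  ss_symm p q hpq := by
    rcases hpq with h1 | h1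
    · exact Or.inr h1
    · exact Or.inl h1
  ss_irrefl p hpp := by
    rcases hpp with ⟨g, h1, h2⟩ | ⟨g, h1, h2⟩
    · rw [h1] at h2; exact Sum.inl_ne_inr h2
    · rw [h1] at h2; exact Sum.inl_ne_inr h2
  ss_smul g p q hpq := by
    rcases hpq with ⟨k, rfl, rfl⟩ | ⟨k, rfl, rfl⟩
    · refine Or.inl ⟨g * k, ?_, rfl⟩
      rw [mul_smul]; rfl
    · refine Or.inr ⟨g * k, ?_, rfl⟩
      rw [mul_smul]; rfl
  ss_fib p q hpq := by
    rcases hpq with ⟨k, rfl, rfl⟩ | ⟨k, rfl, rfl⟩ <;> rfl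
  ss_conn p q hpq := by
    cases p with
    | inl x =>
      cases q with
      | inl y =>
        have : x = y := Set.singleton_injective hpq
        rw [this]
      | inr g =>
        have : x = g • x0 := Set.singleton_injective hpq
        rw [this]
        exact Relation.ReflTransGen.single (Or.inl ⟨g, rfl, rfl⟩)
    | inr k =>
      cases q with
      | inl y =>
        have : k • x0 = y := Set.singleton_injective hpq
        rw [← this]
        exact Relation.ReflTransGen.single (Or.inr ⟨k, rfl, rfl⟩)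
      | inr g =>
        have : k • x0 = g • x0 := Set.singleton_injective hpq
        refine (Relation.ReflTransGen.single (b := Sum.inl (k • x0)) (Or.inr ⟨k, rfl, rfl⟩)).tail ?_
        exact Or.inl ⟨g, by rw [this], rfl⟩
  ss_sc := by
    intro H _ c hc _
    refine ⟨fun p => match p with
      | .inl _ => 1
      | .inr g => c (.inl (g • x0)) (.inr g), ?_⟩
    intro p q hpq
    rcases hpq with ⟨k, rfl, rfl⟩ | ⟨k, rfl, rfl⟩
    · show c _ _ = (1 : H)⁻¹ * c _ _
      rw [inv_one, one_mul]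
    · show c _ _ = (c _ _)⁻¹ * (1 : H)
      rw [mul_one]
      exact eq_inv_of_mul_eq_one_left (hc _ _ (Or.inr ⟨k, rfl, rfl⟩))
  π := stπ X x0 w C
  π_ρ x y c _ _ _ := by
    rcases star_π_cases X x0 w C x y c with ⟨h1, -⟩ | ⟨g, h1, h2⟩
    · rw [h1]; rfl
    · rw [h1, h2.1]; rfl
  p1 g x y c _ _ _ := star_π_smul X x0 u w C hA hTC hI h g x y c
  p2 x y a b _ _ _ := by
    rcases star_π_cases X x0 w C x y a with ⟨h1, -⟩ | ⟨g, h1, h2⟩
    · rcases star_π_cases X x0 w C x y b with ⟨h3, -⟩ | ⟨k, h3, h4⟩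
      · left; rw [h1, h3]
      · right; rw [h1, h3]
        exact Or.inl ⟨k, by rw [h4.1], rfl⟩
    · rcases star_π_cases X x0 w C x y b with ⟨h3, -⟩ | ⟨k, h3, h4⟩
      · right; rw [h1, h3]
        exact Or.inr ⟨g, by rw [h2.1], rfl⟩
      · left
        rw [h1, h3, star_pos_uniq X x0 u w C hA hTC hI h h2.1 h2.2.1 h4.1 h4.2.1]
  p3 x y z c ht _ _ hc := by
    rcases star_π_cases X x0 w C x y c with ⟨h1, h2⟩ | ⟨g, h1, h2⟩
    · rcases star_π_cases X x0 w C x z c with ⟨h3, -⟩ | ⟨k, h3, h4⟩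
      · rw [h1, h3]
      · exact absurd (star_p3 X x0 u w C hTC h h4 (X.K.tri_perm ht).2.2.2.1 (star_center_symm X hc)) (h2 k)
    · rw [h1, star_π_inr X x0 u w C hA hTC hI h (star_p3 X x0 u w C hTC h h2 ht hc)]
  p4 x y z c ht hxy _ _ := absurd (Set.singleton_injective hxy) (X.K.tri_ne ht).1
  p5 x y c c' _ _ hfr _ _ := by
    have hno : ∀ (a : X.U) (g : G), ¬ StPos X x0 w C g x y a := by
      intro a g hp
      apply hfr
      have h1 := Fr_smul g (h.2.2.2.2.1 _ (Set.mem_smul_set_iff_inv_smul_mem.1 hp.2.1))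
      rw [smul_inv_smul, ← hp.1] at h1
      exact h1
    rcases star_π_cases X x0 w C x y c with ⟨h1, -⟩ | ⟨g, -, h2⟩
    · rcases star_π_cases X x0 w C x y c' with ⟨h3, -⟩ | ⟨k, -, h4⟩
      · rw [h1, h3]
      · exact absurd h4 (hno _ _)
    · exact absurd h2 (hno _ _)
  stab p := by
    cases p with
    | inl x =>
      have e : stabilizer G (Sum.inl x : X.V ⊕ G) = stabilizer G x := by
        ext g
        rw [mem_stabilizer_iff, mem_stabilizer_iff]
        exact ⟨fun h1 => Sum.inl_injective h1, fun h1 => congrArg Sum.inl h1⟩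
      rw [e]
      exact X.K.stab x
    | inr k =>
      have e : stabilizer G (Sum.inr k : X.V ⊕ G) = ⊥ := by
        ext g
        rw [mem_stabilizer_iff, Subgroup.mem_bot]
        constructor
        · intro h1
          have h2 : g * k = k := Sum.inr_injective h1
          exact mul_eq_right.1 h2
        · rintro rfl
          rw [one_smul]
      rw [e]
      exact Or.inl inferInstance
  finW := by
    obtain ⟨F, hF1, hF2, hF3, -⟩ := FinOrb.reps X.K.finOrb_v
    refine finOrb_of_reps ((fun x => (Sum.inl x : X.V ⊕ G)) '' (F : Set X.V) ∪ {Sum.inr 1})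
      ((F.finite_toSet.image _).union (Set.finite_singleton _)) ?_
    rintro (x | k) -
    · obtain ⟨y, hy, g, hg⟩ := hF3 x (Set.mem_univ _)
      exact ⟨Sum.inl y, Or.inl ⟨y, hy, rfl⟩, g, congrArg Sum.inl hg⟩
    · exact ⟨Sum.inr 1, Or.inr rfl, k, congrArg Sum.inr (mul_one k)⟩
  finS := by
    refine finOrb_of_reps {((Sum.inl x0 : X.V ⊕ G), (Sum.inr 1 : X.V ⊕ G)), (Sum.inr 1, Sum.inl x0)}
      (Set.toFinite _) ?_
    rintro ⟨p, q⟩ hpq
    rcases hpq with ⟨k, hp, hq⟩ | ⟨k, hq, hp⟩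
    · refine ⟨(Sum.inl x0, Sum.inr 1), by simp, k, ?_⟩
      have hp' : p = Sum.inl (k • x0) := hp
      have hq' : q = Sum.inr k := hq
      rw [hp', hq']
      exact Prod.ext rfl (congrArg Sum.inr (mul_one k))
    · refine ⟨(Sum.inr 1, Sum.inl x0), by simp, k, ?_⟩
      have hp' : p = Sum.inr k := hp
      have hq' : q = Sum.inl (k • x0) := hq
      rw [hp', hq']
      exact Prod.ext (congrArg Sum.inr (mul_one k)) rfl

/-- the switches are the translates of the exits -/
theorem star_switch (hA : ST_TFA) (hTC : ST_TFC) (hI : ST_INF) (h : X.IsPl x0 u w C) {x y : X.V} {u' w' : X.U}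
    (hs : (x, y, u', w') ∈ (stPD X x0 u w C hA hTC hI h).Sw) :
    ∃ g : G, x = g • x0 ∧ g⁻¹ • y ∈ X.exP x0 u w C ∧ u' = g • u ∧ w' = g • w ∧
      stπ X x0 w C x y u' = Sum.inl x ∧ stπ X x0 w C x y w' = Sum.inr g := by
  obtain ⟨-, -, hu, -, ⟨hadj', hx', hy'⟩, hne⟩ := hs
  have hne' : stπ X x0 w C x y u' ≠ stπ X x0 w C x y w' := hne
  have hadj : X.D.T.Adj u w := h.1
  have hNw : X.P.N x0 w = u := h.2.1
  rcases star_π_cases X x0 w C x y u' with ⟨h1, h2⟩ | ⟨g, h1, h2⟩
  · rcases star_π_cases X x0 w C x y w' with ⟨h3, -⟩ | ⟨g, h3, h4⟩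
    · exact absurd (h1.trans h3.symm) hne'
    · obtain ⟨hx, hyC, k, hk⟩ := h4
      have hy1 : g⁻¹ • y ∈ C := Set.mem_smul_set_iff_inv_smul_mem.1 hyC
      have hNy : X.P.N y (g • u) = g • w := by
        have h5 := X.P.eN g (g⁻¹ • y) u
        rw [smul_inv_smul, (star_C_prop X x0 u w C h _ hy1).2] at h5
        exact h5
      have hNx : X.P.N x (g • w) = g • u := by
        rw [hx, X.P.eN, hNw]
      have hmv : X.P.N y (g • u) ≠ g • u := by
        rw [hNy]
        exact fun h6 => hadj.ne' (smul_left_cancel g h6)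
      have hk1 : (X.P.N y)^[k + 1] (g • u) = w' := by
        rw [Function.iterate_succ_apply, hNy, hk]
      obtain ⟨j, h7, h8⟩ := star_last hmv (k + 1) (Nat.succ_pos k)
      have h9 := star_back (X.P.fN y) (X.P.fN x) (v := g • u) (by rw [hNy, hNx]) j h8
      rw [h7, hk1, hx'] at h9
      rcases Nat.eq_zero_or_pos j with hj | hj
      · subst hj
        have hu' : u' = g • u := h9
        have hw' : w' = g • w := by rw [← hy', hu', hNy]
        refine ⟨g, hx, ?_, hu', hw', h1, h3⟩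
        refine ⟨hy1, ?_⟩
        have hex : ∃ z, X.K.tri x y z := by
          obtain ⟨z, -, hz⟩ := star_C_nbr X x0 u w C h hy1
          have h10 := X.K.smul_tri g _ _ _ hz
          rw [smul_inv_smul, ← hx] at h10
          exact ⟨_, h10⟩
        obtain ⟨z₁, z₂, c₁, c₂, -, ht, -, hc, -, k', hk'⟩ := hu.2 hex
        refine ⟨g⁻¹ • z₂, ?_, ?_⟩
        · have h10 := X.K.smul_tri g⁻¹ _ _ _ ht
          rw [hx, inv_smul_smul] at h10
          exact h10
        · intro h11
          have h12 : X.P.N z₂ u' = w' := by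
            have h13 := X.P.eN g (g⁻¹ • z₂) u
            rw [smul_inv_smul, h11, ← hu', ← hw'] at h13
            exact h13
          have h14 := star_fwd (X.P.fN y) (X.P.fN z₂) k' c₂ (by rw [hk', h12, hy'])
            (by rw [hk', hy']; exact hadj'.ne')
          exact h14.2 (hc.2.1 h14.1.symm)
      · exfalso
        refine h2 g ⟨hx, hyC, j - 1, ?_⟩
        have e : j = (j - 1) + 1 := by omega
        rw [e, Function.iterate_succ_apply, hNy] at h9
        exact h9.symm
  · rcases star_π_cases X x0 w C x y w' with ⟨h3, h4⟩ | ⟨k, h3, h4⟩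
    · exfalso
      obtain ⟨hx, hyC, k, hk⟩ := h2
      refine h4 g ⟨hx, hyC, k + 1, ?_⟩
      rw [Function.iterate_succ_apply', hk, hy']
    · exfalso
      apply hne'
      rw [h1, h3, star_pos_uniq X x0 u w C hA hTC hI h h2.1 h2.2.1 h4.1 h4.2.1]

/-- the lifted triangle at the leaf -/
theorem star_lift (hA : ST_TFA) (hTC : ST_TFC) (hI : ST_INF) (hL : ST_LEG) (h : X.IsPl x0 u w C) :
    ∃ q r, (stPD X x0 u w C hA hTC hI h).lt (Sum.inr 1) q r := by
  have hadj : X.D.T.Adj u w := h.1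
  have hNw : X.P.N x0 w = u := h.2.1
  have hN := X.P.fN x0
  obtain ⟨-, -, -, -, -, y, hy, -⟩ := id h
  obtain ⟨z, hz, ht⟩ := star_C_nbr X x0 u w C h hy
  have hyu := (star_C_prop X x0 u w C h y hy).2
  have hzu := (star_C_prop X x0 u w C h z hz).2
  obtain ⟨c, hc, -⟩ := (hL G X x0 y z ht).1
  have hNy := X.P.fN y
  have hNz := X.P.fN z
  have o1 : OnI (X.P.N x0) (X.P.N y) w := by
    intro h4
    rw [hNw] at h4
    exact absurd h4.symm (star_opp hNy hadj hyu)
  have o2 : OnI (X.P.N x0) (X.P.N y) c := hc.1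
  have hpos : ∃ k : ℕ, (X.P.N y)^[k] w = c := by
    obtain ⟨k', h2 | h2⟩ := (hTC X.U X.D.T X.D.tree _ _ hN hNy).1 w c o1 o2
    · rcases Nat.eq_zero_or_pos k' with h3 | h3
      · subst h3
        exact ⟨0, h2.symm⟩
      · exfalso
        have hne : X.P.N x0 w ≠ w := by rw [hNw]; exact hadj.ne
        obtain ⟨j, h4, h5⟩ := star_last hne k' h3
        have h6 := star_back hN hNy (v := w) (by rw [hNw, hyu]) j h5
        have h7 := star_back hN hNz (v := w) (by rw [hNw, hzu]) j h5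
        rw [h4, ← h2] at h6 h7 h5
        have h8 := hc.2.1 (h6.trans h7.symm)
        rw [h6] at h8
        exact h5 h8.symm
    · exact ⟨k', h2.symm⟩
  have hp : StPos X x0 w C 1 x0 y c := by
    obtain ⟨k, hk⟩ := hpos
    exact ⟨(one_smul _ _).symm, by rw [one_smul]; exact hy, k, by rw [one_smul]; exact hk⟩
  have hne := X.K.tri_ne ht
  refine ⟨stπ X x0 w C y z c, stπ X x0 w C z x0 c, x0, y, z, c, ht, ?_, ?_, ?_, hc, ?_, rfl, rfl⟩
  · exact fun h1 => hne.1 (Set.singleton_injective h1)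
  · exact fun h1 => hne.2.1 (Set.singleton_injective h1)
  · exact fun h1 => hne.2.2 (Set.singleton_injective h1)
  · exact (star_π_inr X x0 u w C hA hTC hI h hp).symm

end comp

/-- STAR -/
theorem st_STAR (hA : ST_TFA) (hTC : ST_TFC) (hI : ST_INF) (hPL : ST_PL) (hFF : ST_FF) (hFV : ST_FV)
    (hL : ST_LEG) : ST_STAR := by
  intro G _ X x0 u w C h
  by_contra hcon
  have hlt2 : (X.exP x0 u w C).ncard < 2 := Nat.lt_of_not_le hcon
  have hexfin : (X.exP x0 u w C).Finite := h.2.2.2.1.subset (fun y hy => hy.1)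
  obtain ⟨R, e, hbij, heq, -, htriR, hrr, hlt, hdt⟩ :=
    hPL G X.D X.K X.P X.red X.nmax.1 X.nd (stPD X x0 u w C hA hTC hI h)
  -- number of switches
  have hsw : oc G (stPD X x0 u w C hA hTC hI h).Sw ≤ (X.exP x0 u w C).ncard := by
    have hsub : (fun s : X.V × X.V × X.U × X.U => orbit G s) '' (stPD X x0 u w C hA hTC hI h).Sw ⊆
        (fun y : X.V => orbit G ((x0, y, u, w) : X.V × X.V × X.U × X.U)) '' (X.exP x0 u w C) := by
      rintro _ ⟨⟨x, y, u', w'⟩, hs, rfl⟩
      obtain ⟨g, h1, h2, h3, h4, -, -⟩ := star_switch X x0 u w C hA hTC hI h hs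
      refine ⟨g⁻¹ • y, h2, orbit_eq_iff'.2 ⟨g, ?_⟩⟩
      show ((g • x0, g • g⁻¹ • y, g • u, g • w) : X.V × X.V × X.U × X.U) = (x, y, u', w')
      rw [smul_inv_smul, ← h1, ← h3, ← h4]
    exact (Set.ncard_le_ncard hsub (hexfin.image _)).trans (Set.ncard_image_le hexfin)
  have hrrK : oc G {s : Set X.K.V | ∃ x y z, X.K.tri x y z ∧
      (stPD X x0 u w C hA hTC hI h).cl x ≠ (stPD X x0 u w C hA hTC hI h).cl y ∧
      (stPD X x0 u w C hA hTC hI h).cl y ≠ (stPD X x0 u w C hA hTC hI h).cl z ∧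
      (stPD X x0 u w C hA hTC hI h).cl x ≠ (stPD X x0 u w C hA hTC hI h).cl z ∧ s = {x, y, z}} ≤ rr X.K := by
    refine oc_mono X.K.finT ?_
    rintro s ⟨x, y, z, h1, -, -, -, h2⟩
    exact ⟨x, y, z, h1, h2⟩
  have hrmin : RMin X.K := X.nmax.1
  -- the leaf is a free vertex in a lifted triangle
  obtain ⟨q0, r0, hlift⟩ := star_lift X x0 u w C hA hTC hI hL h
  obtain ⟨a, ha⟩ := hbij.2 (Sum.inr 1)
  obtain ⟨b, hb⟩ := hbij.2 q0
  obtain ⟨c, hc⟩ := hbij.2 r0
  rw [← ha, ← hb, ← hc] at hlift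
  have htri : R.tri a b c := (htriR a b c).2 (Or.inl hlift)
  have hfree : ∀ g : G, g • a = a → g = 1 := by
    intro g hg
    have h1 := heq g a
    rw [hg, ha] at h1
    have h2 : (Sum.inr 1 : X.V ⊕ G) = Sum.inr (g * 1) := h1
    have h3 := Sum.inr_injective h2
    rw [mul_one] at h3
    exact h3.symm
  by_cases hle : rr R ≤ rr X.K
  · have hRmin : RMin R := fun K' => hle.trans (hrmin K')
    refine hFV G X.D R hRmin a b c htri ?_
    rw [eq_bot_iff]
    intro g hg
    exact Subgroup.mem_bot.2 (hfree g hg)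
  · -- there is exactly one exit
    have hpos : 0 < oc G (stPD X x0 u w C hA hTC hI h).Sw := by omega
    have hSwne : (stPD X x0 u w C hA hTC hI h).Sw.Nonempty := by
      by_contra h1
      rw [Set.not_nonempty_iff_eq_empty] at h1
      rw [h1, oc_empty] at hpos
      exact lt_irrefl 0 hpos
    obtain ⟨⟨x, y, u', w'⟩, hs⟩ := hSwne
    obtain ⟨g, h1, h2, h3, h4, h5, h6⟩ := star_switch X x0 u w C hA hTC hI h hs
    have hdt0 : (stPD X x0 u w C hA hTC hI h).dt (Sum.inl x) (Sum.inr g) (stπ X x0 w C y x u') :=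
      ⟨x, y, u', w', hs, rfl, Or.inl ⟨h5.symm, h6.symm⟩⟩
    obtain ⟨p, hp⟩ := hbij.2 (Sum.inl x)
    obtain ⟨q, hq⟩ := hbij.2 (Sum.inr g)
    obtain ⟨r, hr⟩ := hbij.2 (stπ X x0 w C y x u')
    have hdt1 : (stPD X x0 u w C hA hTC hI h).dt (e p) (e q) (e r) := by
      rw [hp, hq, hr]; exact hdt0
    have htri1 : R.tri p q r := (htriR p q r).2 (Or.inr (Or.inl hdt1))
    have hρpq : (stPD X x0 u w C hA hTC hI h).ρ (e p) = (stPD X x0 u w C hA hTC hI h).ρ (e q) := by
      rw [hp, hq, h1]; rfl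
    have hρg : ∀ k : G, (stPD X x0 u w C hA hTC hI h).ρ (e (k • p)) =
        (stPD X x0 u w C hA hTC hI h).ρ (e (k • q)) := by
      intro k
      rw [heq, heq, PD.ρ_smul, PD.ρ_smul, hρpq]
    have hρr := (hdt _ _ _ hdt1).2
    have huniq : ∀ r', R.tri p q r' → r' = r := by
      intro r' hr'
      rcases (htriR p q r').1 hr' with h7 | h7 | h7 | h7
      · exact absurd hρpq (hlt _ _ _ h7).1
      · obtain ⟨x2, y2, u2, w2, hs2, h8, h9⟩ := h7
        obtain ⟨g2, i1, i2, i3, i4, i5, i6⟩ := star_switch X x0 u w C hA hTC hI h hs2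
        rcases h9 with ⟨h9, h10⟩ | ⟨h9, h10⟩
        · have h11 : (Sum.inr g : X.V ⊕ G) = Sum.inr g2 := by rw [← hq, h10]; exact i6
          have h12 : g = g2 := Sum.inr_injective h11
          subst h12
          have h13 : g⁻¹ • y2 = g⁻¹ • y := by
            have h14 : (X.exP x0 u w C).ncard ≤ 1 := by omega
            exact (Set.ncard_le_one hexfin).1 h14 _ i2 _ h2
          have h14 : y2 = y := smul_left_cancel _ h13
          have h15 : x2 = x := by rw [i1, h1]
          have h16 : u2 = u' := by rw [i3, h3]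
          rw [h14, h15, h16] at h8
          exact hbij.1 (h8.trans hr.symm)
        · exfalso
          have h11 : (Sum.inl x : X.V ⊕ G) = Sum.inr g2 := by rw [← hp, h9]; exact i6
          exact Sum.inl_ne_inr h11
      · exact absurd hρpq (hdt _ _ _ h7).2
      · exfalso
        have h8 := (stPD X x0 u w C hA hTC hI h).ss_fib _ _ (hdt _ _ _ h7).1
        exact (hdt _ _ _ h7).2 (hρpq.symm.trans h8.symm)
    have hset : ∀ (k : G) (s : R.V), (stPD X x0 u w C hA hTC hI h).ρ (e s) =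
        (stPD X x0 u w C hA hTC hI h).ρ (e p) → ({k • p, k • q} : Set R.V) ≠ {s, r} := by
      intro k s hs' hcon'
      have hs1 : s ∈ ({k • p, k • q} : Set R.V) := by rw [hcon']; simp
      have hr1 : r ∈ ({k • p, k • q} : Set R.V) := by rw [hcon']; simp
      have hs2 : (stPD X x0 u w C hA hTC hI h).ρ (e s) = (stPD X x0 u w C hA hTC hI h).ρ (e (k • p)) := by
        rcases hs1 with h7 | h7
        · rw [h7]
        · rw [h7, ← hρg k]
      have hr2 : (stPD X x0 u w C hA hTC hI h).ρ (e r) = (stPD X x0 u w C hA hTC hI h).ρ (e (k • p)) := by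
        rcases hr1 with h7 | h7
        · rw [h7]
        · rw [h7, ← hρg k]
      exact hρr (hr2.trans (hs2.symm.trans hs'))
    obtain ⟨K', i, hsub, hsurj, -, htri', hrr'⟩ := hFF G X.D R p q r htri1 huniq
      (fun k => hset k p rfl) (fun k => hset k q hρpq.symm)
    have hK'min : RMin K' := fun L => (by omega : rr K' ≤ rr X.K).trans (hrmin L)
    obtain ⟨a', ha'⟩ := hsurj a
    obtain ⟨b', hb'⟩ := hsurj b
    obtain ⟨c', hc'⟩ := hsurj c
    have htri2 : K'.tri a' b' c' := by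
      rw [htri', ha', hb', hc']
      refine ⟨htri, fun k hcon' => ?_⟩
      obtain ⟨n1, n2, n3⟩ := hlt _ _ _ hlift
      have hp1 : k • p ∈ ({a, b, c} : Set R.V) := by rw [hcon']; simp
      have hq1 : k • q ∈ ({a, b, c} : Set R.V) := by rw [hcon']; simp
      have hne : k • p ≠ k • q := by
        intro h7
        have h8 : p = q := smul_left_cancel k h7
        rw [h8, hq] at hp
        exact Sum.inl_ne_inr hp.symm
      have hk := hρg k
      simp only [Set.mem_insert_iff, Set.mem_singleton_iff] at hp1 hq1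
      rcases hp1 with h7 | h7 | h7 <;> rcases hq1 with h8 | h8 | h8 <;> rw [h7, h8] at hk hne
      · exact hne rfl
      · exact n1 hk
      · exact n3 hk
      · exact n1 hk.symm
      · exact hne rfl
      · exact n2 hk
      · exact n3 hk.symm
      · exact n2 hk.symm
      · exact hne rfl
    refine hFV G X.D K' hK'min a' b' c' htri2 ?_
    rw [eq_bot_iff]
    intro k hk
    refine Subgroup.mem_bot.2 (hfree k ?_)
    have h7 : k • a' = a' := hk
    rw [← ha', ← hsub.equiv, h7]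

end Pool.Agent.Helper93.HZ
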